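import Mathlib

namespace Pool.Agent.Lib.MP_e22fa6_co

open Finset

/-- gain of a two-part word over the grand coalition at a gap -/
noncomputable def Gf (a b p q : ℝ) : ℝ :=
  (p+q)*(a+b-p-q)/(a+b-1) - p*(a-p)/(a-1) - q*(b-q)/(b-1)

lemma Gf_swap (a b p q : ℝ) : Gf b a q p = Gf a b p q := by
  unfold Gf
  rw [add_comm q p, add_comm b a]
  ring

lemma Gf_rev (a b p q : ℝ) : Gf a b (a-p) (b-q) = Gf a b p q := by
  unfold Gf
  have h : (a - p + (b - q)) * (a + b - (a - p) - (b - q)) = (p+q)*(a+b-p-q) := by ring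
  rw [h]
  ring

lemma Gf_fwd (a b p q : ℝ) (ha : 1 < a) (hb : 1 < b) (hq : 0 ≤ q)
    (h : (q-1)*(a-1) ≤ p*(b-1)) :
    Gf a b p q * (p+q+1) ≤ Gf a b (p+1) q * (p+q-1) := by
  have ha' : (a-1) ≠ 0 := by linarith
  have hb' : (b-1) ≠ 0 := by linarith
  have hab : (a+b-1) ≠ 0 := by linarith
  have key : Gf a b p q * (p+q+1) - Gf a b (p+1) q * (p+q-1)
      = 2*q*((q-1)*(a-1) - p*(b-1))/((a-1)*(b-1)) := by
    unfold Gf
    field_simp
    ring
  have h2 : 2*q*((q-1)*(a-1) - p*(b-1))/((a-1)*(b-1)) ≤ 0 := by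
    apply div_nonpos_of_nonpos_of_nonneg
    · have : (q-1)*(a-1) - p*(b-1) ≤ 0 := by linarith
      nlinarith
    · apply mul_nonneg <;> linarith
  linarith

lemma Gf_le (a b p q : ℝ) (ha : 1 < a) (hb : 1 < b) (hp : 0 ≤ p) (hpa : p ≤ a) (hq : 0 ≤ q)
    (hqb : q ≤ b) : Gf a b p q ≤ |p/a - q/b| * ((p+q)*(a+b-p-q)/(a+b-1)) := by
  have ha0 : 0 < a := by linarith
  have hb0 : 0 < b := by linarith
  have hn : 0 < a + b - 1 := by linarith
  -- step 1
  have h1 : (a+b)/(a+b-1) * (p*(a-p)/a) ≤ p*(a-p)/(a-1) := by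
    have h : (a+b)/(a+b-1) / a ≤ 1/(a-1) := by
      rw [div_div, div_le_div_iff₀ (by positivity) (by linarith)]
      nlinarith
    calc (a+b)/(a+b-1) * (p*(a-p)/a) = ((a+b)/(a+b-1) / a) * (p*(a-p)) := by ring
      _ ≤ (1/(a-1)) * (p*(a-p)) := by
        apply mul_le_mul_of_nonneg_right h
        apply mul_nonneg hp; linarith
      _ = p*(a-p)/(a-1) := by ring
  have h2 : (a+b)/(a+b-1) * (q*(b-q)/b) ≤ q*(b-q)/(b-1) := by
    have h : (a+b)/(a+b-1) / b ≤ 1/(b-1) := by
      rw [div_div, div_le_div_iff₀ (by positivity) (by linarith)]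
      nlinarith
    calc (a+b)/(a+b-1) * (q*(b-q)/b) = ((a+b)/(a+b-1) / b) * (q*(b-q)) := by ring
      _ ≤ (1/(b-1)) * (q*(b-q)) := by
        apply mul_le_mul_of_nonneg_right h
        apply mul_nonneg hq; linarith
      _ = q*(b-q)/(b-1) := by ring
  have h3 : (p+q)*(a+b-p-q)/(a+b-1) - (a+b)/(a+b-1) * (p*(a-p)/a)
      - (a+b)/(a+b-1) * (q*(b-q)/b) = (|p/a - q/b| * (a*b*|p/a - q/b|))/(a+b-1) := by
    have : |p/a - q/b| * (a*b*|p/a - q/b|) = a*b*((p/a - q/b)^2) := by
      rw [← sq_abs (p/a-q/b)]; ring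
    rw [this]
    field_simp
    ring
  have h4 : a*b*|p/a - q/b| ≤ (p+q)*(a+b-p-q) := by
    have : a*b*|p/a - q/b| = |p*b - q*a| := by
      rw [show p*b - q*a = (a*b)*(p/a - q/b) by field_simp, abs_mul, abs_of_pos (by positivity : 0 < a*b)]
    rw [this]
    have e1 : 0 ≤ p*(a-p) := mul_nonneg hp (by linarith)
    have e2 : 0 ≤ q*(b-q) := mul_nonneg hq (by linarith)
    have e3 : 0 ≤ q*(a-p) := mul_nonneg hq (by linarith)
    have e4 : 0 ≤ p*(b-q) := mul_nonneg hp (by linarith)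
    rw [abs_le]
    constructor <;> nlinarith
  have h5 : (|p/a - q/b| * (a*b*|p/a - q/b|))/(a+b-1) ≤ |p/a - q/b| * ((p+q)*(a+b-p-q)/(a+b-1)) := by
    rw [mul_div_assoc]
    apply mul_le_mul_of_nonneg_left _ (abs_nonneg _)
    exact div_le_div_of_nonneg_right h4 hn.le
  unfold Gf
  linarith

structure IsPath (a b : ℕ) (p q : ℕ → ℕ) : Prop where
  p0 : p 0 = 0
  q0 : q 0 = 0
  pn : p (a+b) = a
  qn : q (a+b) = b
  step : ∀ t < a+b, (p (t+1) = p t + 1 ∧ q (t+1) = q t) ∨ (p (t+1) = p t ∧ q (t+1) = q t + 1)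

namespace IsPath

variable {a b : ℕ} {p q : ℕ → ℕ}

lemma swap (H : IsPath a b p q) : IsPath b a q p where
  p0 := H.q0
  q0 := H.p0
  pn := by rw [add_comm]; exact H.qn
  qn := by rw [add_comm]; exact H.pn
  step := by
    intro t ht
    rcases H.step t (by omega) with h | h
    · right; exact ⟨h.2, h.1⟩
    · left; exact ⟨h.2, h.1⟩

lemma sum_eq (H : IsPath a b p q) : ∀ t, t ≤ a+b → p t + q t = t := by
  intro t
  induction t with
  | zero => intro _; simp [H.p0, H.q0]
  | succ t ih =>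
    intro ht
    have := ih (by omega)
    rcases H.step t (by omega) with h | h <;> omega

lemma p_mono (H : IsPath a b p q) : ∀ m t, t + m ≤ a + b → p t ≤ p (t+m) := by
  intro m
  induction m with
  | zero => intro t _; simp
  | succ m ih =>
    intro t ht
    have h1 := ih t (by omega)
    have h2 := H.step (t+m) (by omega)
    rw [← add_assoc]
    omega

lemma p_le (H : IsPath a b p q) {t : ℕ} (ht : t ≤ a+b) : p t ≤ a := by
  have := H.p_mono (a+b-t) t (by omega)
  rw [Nat.add_sub_cancel' ht, H.pn] at this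
  exact this

lemma q_le (H : IsPath a b p q) {t : ℕ} (ht : t ≤ a+b) : q t ≤ b :=
  H.swap.p_le (by omega)

lemma rev (H : IsPath a b p q) :
    IsPath a b (fun t => a - p (a+b-t)) (fun t => b - q (a+b-t)) where
  p0 := by simp [H.pn]
  q0 := by simp [H.qn]
  pn := by simp [H.p0]
  qn := by simp [H.q0]
  step := by
    intro t ht
    have h1 := H.step (a+b-(t+1)) (by omega)
    have e : a+b-(t+1)+1 = a+b-t := by omega
    rw [e] at h1
    have h2 := H.p_le (t := a+b-t) (by omega)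
    have h3 := H.q_le (t := a+b-t) (by omega)
    omega

end IsPath

/-- the gain at gap `t` -/
noncomputable def G (a b : ℕ) (p q : ℕ → ℕ) (t : ℕ) : ℝ := Gf a b (p t) (q t)

/-- weight of the transition at `t` -/
noncomputable def wt (a b : ℕ) (p q : ℕ → ℕ) (t : ℕ) : ℝ :=
  ((p t : ℝ)/a - (q t : ℝ)/b) * (2 * (p t : ℝ) - p (t-1) - p (t+1))

/-- gain of the sorted cut at `t` at gap `s` -/
noncomputable def Tf (n t s : ℕ) : ℝ :=
  if s ≤ t then (s:ℝ)*(s-1)*(n-t)/((t-1)*(n-1)) else ((n:ℝ)-s)*(n-s-1)*t/((n-t-1)*(n-1))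

lemma fwdA {a b : ℕ} {p q : ℕ → ℕ} (H : IsPath a b p q) (ha : 2 ≤ a) (hb : 2 ≤ b) :
    ∀ m s, s + m = a + b → 1 ≤ s → 1 ≤ m → p (s+1) = p s + 1 →
      ((q s:ℝ)-1)*(a-1) ≤ p s * (b-1) →
      G a b p q s ≤ 0 ∨ ∃ t, s ≤ t ∧ t < a+b ∧ p t = p (t-1)+1 ∧ q (t+1) = q t + 1 ∧
        G a b p q s * (t*(t-1)) ≤ G a b p q t *(s*(s-1)) := by
  intro m
  have ha' : (1:ℝ) < a := by exact_mod_cast ha
  have hb' : (1:ℝ) < b := by exact_mod_cast hb
  induction m with
  | zero => intro s _ _ h; omega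
  | succ m ih =>
    intro s hsm hs _ hstep hcond
    have hqstep : q (s+1) = q s := by
      rcases H.step s (by omega) with h | h
      · exact h.2
      · omega
    have hsum : p s + q s = s := H.sum_eq s (by omega)
    have hsumR : (p s : ℝ) + q s = s := by exact_mod_cast hsum
    have hs1 : (1:ℝ) ≤ s := by exact_mod_cast hs
    have key := Gf_fwd a b (p s) (q s) ha' hb' (by positivity) hcond
    have e1 : Gf a b ((p s:ℝ)+1) (q s) = G a b p q (s+1) := by
      unfold G; rw [hstep, hqstep]; push_cast; rfl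
    rw [e1, hsumR] at key
    change G a b p q s * ((s:ℝ)+1) ≤ _ at key
    rcases Nat.eq_zero_or_pos m with hm | hm
    · -- s + 1 = n
      left
      have hn : s + 1 = a + b := by omega
      have : G a b p q (s+1) = 0 := by
        unfold G
        rw [hn, H.pn, H.qn]
        unfold Gf
        simp
      rw [this, zero_mul] at key
      by_contra hcon
      push Not at hcon
      nlinarith
    · have ihs := ih (s+1) (by omega) (by omega) hm
      rcases H.step (s+1) (by omega) with h | h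
      · -- next A
        have hc2 : ((q (s+1):ℝ)-1)*(a-1) ≤ p (s+1) * (b-1) := by
          rw [hqstep, hstep]
          push_cast
          nlinarith
        rcases ihs h.1 hc2 with h0 | ⟨t, ht1, ht2, ht3, ht4, ht5⟩
        · left
          by_contra hcon
          push Not at hcon
          have : G a b p q (s+1) * ((s:ℝ)-1) ≤ 0 :=
            mul_nonpos_of_nonpos_of_nonneg h0 (by linarith)
          nlinarith
        · right
          refine ⟨t, by omega, ht2, ht3, ht4, ?_⟩
          have htR : (1:ℝ) ≤ t := by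
            have : 1 ≤ t := by omega
            exact_mod_cast this
          have htt : 0 ≤ (t:ℝ)*(t-1) := mul_nonneg (by linarith) (by linarith)
          push_cast at ht5
          have k1 : G a b p q s * ((s:ℝ)+1) * (t*(t-1)) ≤ G a b p q (s+1) * ((s:ℝ)-1) * (t*(t-1)) :=
            mul_le_mul_of_nonneg_right key htt
          have k2 : G a b p q (s+1) * (t*(t-1)) * ((s:ℝ)-1) ≤
              G a b p q t * (((s:ℝ)+1)*((s:ℝ)+1-1)) * ((s:ℝ)-1) :=
            mul_le_mul_of_nonneg_right ht5 (by linarith)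
          have k3 : (G a b p q s * ((t:ℝ)*(t-1))) * ((s:ℝ)+1) ≤ (G a b p q t *(s*(s-1))) * ((s:ℝ)+1) := by
            nlinarith
          exact le_of_mul_le_mul_right k3 (by linarith)
      · right
        refine ⟨s+1, by omega, by omega, by simpa using hstep, h.2, ?_⟩
        push_cast
        have : G a b p q s * ((s:ℝ)+1) * s ≤ G a b p q (s+1) * ((s:ℝ)-1) * s :=
          mul_le_mul_of_nonneg_right key (by linarith)
        nlinarith



lemma wt_swap {a b : ℕ} {p q : ℕ → ℕ} (H : IsPath a b p q) {t : ℕ} (h1 : 1 ≤ t) (h2 : t < a + b) :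
    wt b a q p t = wt a b p q t := by
  have e1 : (p t : ℝ) + q t = t := by exact_mod_cast H.sum_eq t (by omega)
  have e2 : (p (t+1) : ℝ) + q (t+1) = t+1 := by exact_mod_cast H.sum_eq (t+1) (by omega)
  have e3 : (p (t-1) : ℝ) + q (t-1) = t-1 := by
    have := H.sum_eq (t-1) (by omega)
    have h3 : ((p (t-1) + q (t-1) : ℕ) : ℝ) = ((t-1 : ℕ) : ℝ) := by rw [this]
    rw [Nat.cast_sub h1] at h3
    push_cast at h3
    exact h3
  unfold wt
  have : 2 * (q t : ℝ) - q (t-1) - q (t+1) = -(2 * (p t : ℝ) - p (t-1) - p (t+1)) := by linarith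
  rw [this]; ring

lemma wt_rev {a b : ℕ} {p q : ℕ → ℕ} (H : IsPath a b p q) (ha : 2 ≤ a) (hb : 2 ≤ b) {t : ℕ}
    (h1 : 1 ≤ t) (h2 : t < a + b) :
    wt a b (fun t => a - p (a+b-t)) (fun t => b - q (a+b-t)) (a+b-t) = wt a b p q t := by
  have ha' : (a:ℝ) ≠ 0 := by positivity
  have hb' : (b:ℝ) ≠ 0 := by positivity
  unfold wt
  have i1 : a + b - (a+b-t) = t := by omega
  have i2 : a + b - (a+b-t-1) = t+1 := by omega
  have i3 : a + b - (a+b-t+1) = t-1 := by omega
  simp only [i1, i2, i3]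
  rw [Nat.cast_sub (H.p_le (by omega)), Nat.cast_sub (H.q_le (by omega)),
    Nat.cast_sub (H.p_le (by omega)), Nat.cast_sub (H.p_le (by omega))]
  field_simp
  ring

lemma Tf_rev {n t s : ℕ} (ht1 : 2 ≤ t) (ht : t + 2 ≤ n) (hs1 : 1 ≤ s) (hs : s < n) :
    Tf n (n-t) (n-s) = Tf n t s := by
  have c1 : ((n - t : ℕ) : ℝ) = n - t := Nat.cast_sub (by omega)
  have c2 : ((n - s : ℕ) : ℝ) = n - s := Nat.cast_sub (by omega)
  have hn : (n:ℝ) - 1 ≠ 0 := by
    have : (4:ℝ) ≤ n := by exact_mod_cast (by omega : 4 ≤ n)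
    linarith
  have htR : (t:ℝ) - 1 ≠ 0 := by
    have : (2:ℝ) ≤ t := by exact_mod_cast ht1
    linarith
  have htR2 : (n:ℝ) - t - 1 ≠ 0 := by
    have : (t:ℝ) + 2 ≤ n := by exact_mod_cast ht
    linarith
  unfold Tf
  rcases lt_trichotomy s t with h | h | h
  · rw [if_neg (by omega), if_pos (by omega), c1, c2]
    have : (n:ℝ) - (n - t) - 1 = t - 1 := by ring
    rw [this]
    ring
  · subst h
    rw [if_pos (by omega), if_pos (by omega), c1]
    field_simp
    ring
  · rw [if_pos (by omega), if_neg (by omega), c1, c2]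
    ring

lemma bound_fwd {a b : ℕ} {p q : ℕ → ℕ} (H : IsPath a b p q) (ha : 2 ≤ a) (hb : 2 ≤ b)
    (hst : ∀ t, 1 ≤ t → t < a + b → 0 ≤ wt a b p q t)
    {s : ℕ} (hs1 : 1 ≤ s) (hs : s < a + b) (hA : p (s+1) = p s + 1)
    (hc : ((q s:ℝ)-1)*(a-1) ≤ p s * (b-1)) :
    G a b p q s ≤ 0 ∨ ∃ t, 2 ≤ t ∧ t + 2 ≤ a + b ∧ G a b p q s ≤ wt a b p q t * Tf (a+b) t s := by
  have ha' : (1:ℝ) < a := by exact_mod_cast ha
  have hb' : (1:ℝ) < b := by exact_mod_cast hb
  rcases fwdA H ha hb (a+b-s) s (by omega) hs1 (by omega) hA hc with h | ⟨t, h1, h2, h3, h4, h5⟩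
  · left; exact h
  have ht1 : 1 ≤ t := by omega
  have hsR : (1:ℝ) ≤ s := by exact_mod_cast hs1
  have htR : (1:ℝ) ≤ t := by exact_mod_cast ht1
  have hp4 : p (t+1) = p t := by
    rcases H.step t h2 with h | h
    · omega
    · exact h.1
  have hsum : p t + q t = t := H.sum_eq t (by omega)
  have hsumR : (p t : ℝ) + q t = t := by exact_mod_cast hsum
  have hpa := H.p_le (t := t) (by omega)
  have hqb := H.q_le (t := t) (by omega)
  have hqb1 := H.q_le (t := t+1) (by omega)
  rcases Nat.lt_or_ge t 2 with h | ht2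
  · -- t = 1, s = 1
    left
    have h1' : t = 1 := by omega
    have hs' : s = 1 := by omega
    subst hs'
    have e1 : p 0 + q 0 = 0 := by rw [H.p0, H.q0]
    have e2 : p 1 = 1 := by
      subst h1'
      simp [H.p0] at h3
      exact h3
    have e3 : q 1 = 0 := by subst h1'; omega
    unfold G
    rw [e2, e3]
    unfold Gf
    have k1 : (a:ℝ) + b - 1 ≠ 0 := by linarith
    have k2 : (a:ℝ) - 1 ≠ 0 := by linarith
    simp
    rw [div_self k1, div_self k2]
  rcases Nat.lt_or_ge (a+b) (t+2) with h | ht3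
  · -- t = n - 1
    left
    have htn : t + 1 = a + b := by omega
    have e1 : p (t+1) = a := by rw [htn, H.pn]
    have e2 : q (t+1) = b := by rw [htn, H.qn]
    have e3 : (p t : ℝ) = a := by exact_mod_cast (by omega : p t = a)
    have e4 : (q t : ℝ) = b - 1 := by
      have : q t + 1 = b := by omega
      have : (q t : ℝ) + 1 = b := by exact_mod_cast this
      linarith
    have hG : G a b p q t = 0 := by
      unfold G Gf
      rw [e3, e4]
      have k1 : (a:ℝ) + b - 1 ≠ 0 := by linarith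
      have k2 : (b:ℝ) - 1 ≠ 0 := by linarith
      field_simp
      ring_nf
    rw [hG, zero_mul] at h5
    have htt : (0:ℝ) < t * (t-1) := by
      have : (2:ℝ) ≤ t := by exact_mod_cast ht2
      apply mul_pos <;> linarith
    by_contra hcon
    push Not at hcon
    have := mul_pos hcon htt
    linarith
  right
  refine ⟨t, ht2, ht3, ?_⟩
  have ht2R : (2:ℝ) ≤ t := by exact_mod_cast ht2
  have ht3R : (t:ℝ) + 2 ≤ a + b := by exact_mod_cast ht3
  have hwt : wt a b p q t = (p t : ℝ)/a - (q t : ℝ)/b := by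
    unfold wt
    have e1 : ((p t : ℕ) : ℝ) = p (t-1) + 1 := by exact_mod_cast h3
    have : 2 * (p t : ℝ) - p (t-1) - p (t+1) = 1 := by
      rw [hp4]; linarith
    rw [this, mul_one]
  have hwt0 := hst t ht1 h2
  have hG := Gf_le a b (p t) (q t) ha' hb' (by positivity) (by exact_mod_cast hpa)
    (by positivity) (by exact_mod_cast hqb)
  rw [← hwt, abs_of_nonneg hwt0, hsumR] at hG
  have e5 : (a:ℝ) + b - p t - q t = a + b - t := by linarith
  rw [e5] at hG
  change G a b p q t ≤ _ at hG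
  have hst' : s ≤ t := h1
  unfold Tf
  rw [if_pos hst']
  push_cast
  have hss : 0 ≤ (s:ℝ)*(s-1) := mul_nonneg (by linarith) (by linarith)
  have hn1 : (0:ℝ) < a + b - 1 := by linarith
  have k1 : G a b p q s * (t*(t-1)) ≤ (wt a b p q t * (t*(a+b-t)/(a+b-1))) * (s*(s-1)) :=
    h5.trans (mul_le_mul_of_nonneg_right hG hss)
  have k2 : (wt a b p q t * (t*((a:ℝ)+b-t)/(a+b-1))) * (s*(s-1)) =
      (wt a b p q t * (s*(s-1)*(a+b-t)/((t-1)*(a+b-1)))) * (t*(t-1)) := by
    have : (t:ℝ) - 1 ≠ 0 := by linarith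
    field_simp
  rw [k2] at k1
  exact le_of_mul_le_mul_right k1 (mul_pos (by linarith) (by linarith))

lemma G_swap {a b : ℕ} {p q : ℕ → ℕ} (s : ℕ) : G b a q p s = G a b p q s := by
  unfold G; exact Gf_swap _ _ _ _

lemma G_rev {a b : ℕ} {p q : ℕ → ℕ} (H : IsPath a b p q) {s : ℕ} (hs : s ≤ a + b) :
    G a b (fun t => a - p (a+b-t)) (fun t => b - q (a+b-t)) (a+b-s) = G a b p q s := by
  unfold G
  have i1 : a + b - (a+b-s) = s := by omega
  simp only [i1]
  rw [Nat.cast_sub (H.p_le (by omega)), Nat.cast_sub (H.q_le (by omega))]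
  exact Gf_rev _ _ _ _

lemma bound_A {a b : ℕ} {p q : ℕ → ℕ} (H : IsPath a b p q) (ha : 2 ≤ a) (hb : 2 ≤ b)
    (hst : ∀ t, 1 ≤ t → t < a + b → 0 ≤ wt a b p q t)
    {s : ℕ} (hs1 : 1 ≤ s) (hs : s < a + b) (hA : p (s+1) = p s + 1) :
    G a b p q s ≤ 0 ∨ ∃ t, 2 ≤ t ∧ t + 2 ≤ a + b ∧ G a b p q s ≤ wt a b p q t * Tf (a+b) t s := by
  have ha' : (1:ℝ) < a := by exact_mod_cast ha
  have hb' : (1:ℝ) < b := by exact_mod_cast hb
  rcases le_or_gt (((q s:ℝ)-1)*(a-1)) (p s * (b-1)) with hc | hc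
  · exact bound_fwd H ha hb hst hs1 hs hA hc
  have hR := H.rev
  have hq1 : (1:ℝ) ≤ q s := by
    by_contra hcon
    push Not at hcon
    have h1 : ((q s:ℝ)-1)*(a-1) ≤ 0 := mul_nonpos_of_nonpos_of_nonneg (by linarith) (by linarith)
    have h2 : (0:ℝ) ≤ p s * (b-1) := mul_nonneg (by positivity) (by linarith)
    linarith
  have hpaR : (p s : ℝ) ≤ a := by exact_mod_cast H.p_le (t := s) (by omega)
  have hqbR : (q s : ℝ) ≤ b := by exact_mod_cast H.q_le (t := s) (by omega)
  have hqs1 : q (s+1) = q s := by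
    rcases H.step s hs with h | h
    · exact h.2
    · omega
  have hstep := H.step (s-1) (by omega)
  rw [Nat.sub_add_cancel hs1] at hstep
  rcases hstep with h | h
  · -- previous is A: use the reversed path
    have hstR : ∀ t, 1 ≤ t → t < a + b →
        0 ≤ wt a b (fun t => a - p (a+b-t)) (fun t => b - q (a+b-t)) t := by
      intro t h1 h2
      have := wt_rev H ha hb (t := a+b-t) (by omega) (by omega)
      have i : a + b - (a+b-t) = t := by omega
      rw [i] at this
      rw [this]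
      exact hst _ (by omega) (by omega)
    have hAR : (fun t => a - p (a+b-t)) ((a+b-s)+1) = (fun t => a - p (a+b-t)) (a+b-s) + 1 := by
      have i1 : a + b - (a+b-s) = s := by omega
      have i2 : a + b - (a+b-s+1) = s-1 := by omega
      simp only [i1, i2]
      have := H.p_le (t := s) (by omega)
      omega
    have hcR : ((((fun t => b - q (a+b-t)) (a+b-s) : ℕ):ℝ)-1)*(a-1) ≤
        (((fun t => a - p (a+b-t)) (a+b-s) : ℕ) : ℝ) * (b-1) := by
      have i1 : a + b - (a+b-s) = s := by omega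
      simp only [i1]
      rw [Nat.cast_sub (H.p_le (by omega)), Nat.cast_sub (H.q_le (by omega))]
      nlinarith
    rcases bound_fwd hR ha hb hstR (s := a+b-s) (by omega) (by omega) hAR hcR with h0 | ⟨t, h1, h2, h3⟩
    · left
      rw [G_rev H (by omega)] at h0
      exact h0
    · right
      refine ⟨a+b-t, by omega, by omega, ?_⟩
      rw [G_rev H (by omega)] at h3
      have e1 := wt_rev H ha hb (t := a+b-t) (by omega) (by omega)
      have i : a + b - (a+b-t) = t := by omega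
      rw [i] at e1
      rw [← e1]
      have e2 := Tf_rev (n := a+b) (t := a+b-t) (s := s) (by omega) (by omega) hs1 hs
      rw [i] at e2
      rw [← e2]
      exact h3
  · -- previous is B: s is a transition
    have hps : (p (s-1) : ℝ) = p s := by rw [h.1]
    have hps1 : (p (s+1) : ℝ) = p s + 1 := by exact_mod_cast hA
    have hwt : wt a b p q s = (q s : ℝ)/b - (p s : ℝ)/a := by
      unfold wt
      have : 2 * (p s : ℝ) - p (s-1) - p (s+1) = -1 := by
        rw [hps, hps1]; ring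
      rw [this]; ring
    have hwt0 := hst s hs1 hs
    have hsumR : (p s : ℝ) + q s = s := by exact_mod_cast H.sum_eq s (by omega)
    have hG := Gf_le a b (p s) (q s) ha' hb' (by positivity) hpaR (by positivity) hqbR
    have hab : |(p s : ℝ)/a - (q s : ℝ)/b| = wt a b p q s := by
      rw [abs_sub_comm, ← hwt, abs_of_nonneg hwt0]
    rw [hab, hsumR] at hG
    have e5 : (a:ℝ) + b - p s - q s = a + b - s := by linarith
    rw [e5] at hG
    change G a b p q s ≤ _ at hG
    have hs2 : 2 ≤ s := by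
      by_contra hcon
      have hs' : s = 1 := by omega
      subst hs'
      have e1 : q 1 = 1 := by
        have := h.2
        simp [H.q0] at this
        exact this
      have e2 : p 1 = 0 := by
        have := h.1
        simp [H.p0] at this
        exact this
      rw [e1, e2] at hc
      norm_num at hc
    have hs3 : s + 2 ≤ a + b := by
      by_contra hcon
      have hs' : s + 1 = a + b := by omega
      have e1 : p (s+1) = a := by rw [hs', H.pn]
      have e2 : q (s+1) = b := by rw [hs', H.qn]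
      have e3 : (p s : ℝ) = a - 1 := by
        have : p s + 1 = a := by omega
        have : (p s : ℝ) + 1 = a := by exact_mod_cast this
        linarith
      have e4 : (q s : ℝ) = b := by exact_mod_cast (by omega : q s = b)
      rw [e3, e4] at hc
      linarith
    right
    refine ⟨s, hs2, hs3, ?_⟩
    unfold Tf
    rw [if_pos le_rfl]
    push_cast
    have hs2R : (2:ℝ) ≤ s := by exact_mod_cast hs2
    have : (s:ℝ)*(s-1)*(a+b-s)/((s-1)*(a+b-1)) = s*(a+b-s)/(a+b-1) := by
      have : (s:ℝ) - 1 ≠ 0 := by linarith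
      have : (a:ℝ) + b - 1 ≠ 0 := by linarith
      field_simp
    rw [this]
    exact hG

lemma bound {a b : ℕ} {p q : ℕ → ℕ} (H : IsPath a b p q) (ha : 2 ≤ a) (hb : 2 ≤ b)
    (hst : ∀ t, 1 ≤ t → t < a + b → 0 ≤ wt a b p q t)
    {s : ℕ} (hs1 : 1 ≤ s) (hs : s < a + b) :
    G a b p q s ≤ 0 ∨ ∃ t, 2 ≤ t ∧ t + 2 ≤ a + b ∧ G a b p q s ≤ wt a b p q t * Tf (a+b) t s := by
  rcases H.step s hs with h | h
  · exact bound_A H ha hb hst hs1 hs h.1
  · have := bound_A H.swap hb ha (by
      intro t h1 h2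
      rw [wt_swap H h1 (by omega)]
      exact hst t h1 (by omega)) hs1 (by omega) h.2
    rw [G_swap] at this
    rcases this with h0 | ⟨t, h1, h2, h3⟩
    · left; exact h0
    · right
      refine ⟨t, h1, by omega, ?_⟩
      rw [wt_swap H (by omega) (by omega), add_comm b a] at h3
      exact h3

lemma wt_sum {a b : ℕ} {p q : ℕ → ℕ} (H : IsPath a b p q) (ha : 2 ≤ a) (hb : 2 ≤ b) :
    ∑ t ∈ Ico 1 (a+b), wt a b p q t = 1 := by
  have ha' : (a:ℝ) ≠ 0 := by positivity
  have hb' : (b:ℝ) ≠ 0 := by positivity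
  have key : ∀ m, m + 1 ≤ a + b → ∑ t ∈ Ico 1 (m+1), wt a b p q t =
      (p m : ℝ)/a - ((p m : ℝ)/a - (q m : ℝ)/b) * (p (m+1) - p m) := by
    intro m
    induction m with
    | zero => intro _; simp [H.p0, H.q0]
    | succ m ih =>
      intro hm
      rw [Finset.sum_Ico_succ_top (by omega), ih (by omega)]
      unfold wt
      rw [Nat.add_sub_cancel]
      rcases H.step m (by omega) with h | h
      · rw [h.1, h.2]; push_cast
        field_simp
        ring
      · rw [h.1, h.2]; push_cast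
        field_simp
        ring
  have h1 := key (a+b-1) (by omega)
  have e : a + b - 1 + 1 = a + b := by omega
  rw [e, H.pn] at h1
  rw [h1]
  rcases H.step (a+b-1) (by omega) with h | h
  · rw [e, H.pn, H.qn] at h
    have e3 : (p (a+b-1) : ℝ) = a - 1 := by
      have : (a:ℝ) = p (a+b-1) + 1 := by exact_mod_cast h.1
      linarith
    have e4 : (q (a+b-1) : ℝ) = b := by exact_mod_cast h.2.symm
    rw [e3, e4]
    field_simp
    ring
  · rw [e, H.pn, H.qn] at h
    have e3 : (p (a+b-1) : ℝ) = a := by exact_mod_cast h.1.symm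
    rw [e3]
    field_simp
    ring



/-- cost coefficient at a gap with `p` and `q` elements to the left -/
noncomputable def fU (a b : ℕ) (p q : ℕ) : ℝ :=
  (p:ℝ)*(a-p)/(a-1) + (q:ℝ)*(b-q)/(b-1)

/-- cost coefficient of the sorted cut at `k` at gap `s` -/
noncomputable def cf (n k s : ℕ) : ℝ :=
  if s ≤ k then (s:ℝ)*(k-s)/(k-1) else ((s:ℝ)-k)*(n-s)/(n-k-1)

lemma cf_zero {n s : ℕ} : cf n 0 s = (s:ℝ)*(n-s)/(n-1) := by
  unfold cf
  rcases Nat.eq_zero_or_pos s with h | h
  · subst h; simp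
  · rw [if_neg (by omega)]; simp

lemma cf_eq {n k s : ℕ} (hk : 2 ≤ k) (hk2 : k + 2 ≤ n) :
    cf n k s = cf n 0 s - Tf n k s := by
  have htR : (2:ℝ) ≤ k := by exact_mod_cast hk
  have htR2 : (k:ℝ) + 2 ≤ n := by exact_mod_cast hk2
  have h1 : (k:ℝ) - 1 ≠ 0 := by linarith
  have h2 : (n:ℝ) - k - 1 ≠ 0 := by linarith
  have h3 : (n:ℝ) - 1 ≠ 0 := by linarith
  rw [cf_zero]
  unfold cf Tf
  split_ifs with h
  · field_simp
    ring
  · field_simp
    ring

lemma fU_eq {a b : ℕ} {p q : ℕ → ℕ} (H : IsPath a b p q) {s : ℕ} (hs : s ≤ a + b) :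
    fU a b (p s) (q s) = cf (a+b) 0 s - G a b p q s := by
  rw [cf_zero]
  unfold fU G Gf
  have hsumR : (p s : ℝ) + q s = s := by exact_mod_cast H.sum_eq s (by omega)
  have e5 : (a:ℝ) + b - p s - q s = a + b - s := by linarith
  rw [hsumR, e5]
  push_cast
  ring

lemma Tf_nonneg {n t s : ℕ} (ht1 : 2 ≤ t) (ht : t + 2 ≤ n) (hs1 : 1 ≤ s) (hs : s < n) :
    0 ≤ Tf n t s := by
  have htR : (2:ℝ) ≤ t := by exact_mod_cast ht1
  have htR2 : (t:ℝ) + 2 ≤ n := by exact_mod_cast ht
  have hsR : (1:ℝ) ≤ s := by exact_mod_cast hs1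
  have hsR2 : (s:ℝ) + 1 ≤ n := by exact_mod_cast hs
  unfold Tf
  split_ifs with h
  · apply div_nonneg
    · apply mul_nonneg
      · apply mul_nonneg <;> linarith
      · linarith
    · apply mul_nonneg <;> linarith
  · apply div_nonneg
    · apply mul_nonneg
      · apply mul_nonneg <;> linarith
      · linarith
    · apply mul_nonneg <;> linarith

/-- stable case -/
lemma core_stable {a b : ℕ} {p q : ℕ → ℕ} (H : IsPath a b p q) (ha : 2 ≤ a) (hb : 2 ≤ b)
    (hst : ∀ t, 1 ≤ t → t < a + b → 0 ≤ wt a b p q t) (g : ℕ → ℝ) (hg : ∀ s, 0 ≤ g s) :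
    ∃ k, (k = 0 ∨ (2 ≤ k ∧ k + 2 ≤ a + b)) ∧
      ∑ s ∈ Ico 1 (a+b), g s * cf (a+b) k s ≤ ∑ s ∈ Ico 1 (a+b), g s * fU a b (p s) (q s) := by
  classical
  let κ : ℕ → ℕ := fun t => if 2 ≤ t ∧ t + 2 ≤ a + b then t else 0
  have hκ : ∀ t, κ t = 0 ∨ (2 ≤ κ t ∧ κ t + 2 ≤ a + b) := by
    intro t
    by_cases h : 2 ≤ t ∧ t + 2 ≤ a + b
    · right; simp only [κ, if_pos h]; exact h
    · left; simp only [κ, if_neg h]
  -- pointwise domination
  have hpt : ∀ s ∈ Ico 1 (a+b), ∑ t ∈ Ico 1 (a+b), wt a b p q t * cf (a+b) (κ t) s ≤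
      fU a b (p s) (q s) := by
    intro s hs
    rw [Finset.mem_Ico] at hs
    have e1 : ∀ t ∈ Ico 1 (a+b), wt a b p q t * cf (a+b) (κ t) s =
        wt a b p q t * cf (a+b) 0 s - (if 2 ≤ t ∧ t + 2 ≤ a + b then wt a b p q t * Tf (a+b) t s else 0) := by
      intro t _
      by_cases h : 2 ≤ t ∧ t + 2 ≤ a + b
      · simp only [κ, if_pos h]
        rw [cf_eq h.1 h.2]; ring
      · simp only [κ, if_neg h]
        ring
    rw [Finset.sum_congr rfl e1, Finset.sum_sub_distrib, ← Finset.sum_mul, wt_sum H ha hb, one_mul,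
      fU_eq H (by omega)]
    have hnn : ∀ t ∈ Ico 1 (a+b), 0 ≤ (if 2 ≤ t ∧ t + 2 ≤ a + b then wt a b p q t * Tf (a+b) t s else 0) := by
      intro t ht
      rw [Finset.mem_Ico] at ht
      split_ifs with h
      · exact mul_nonneg (hst t ht.1 ht.2) (Tf_nonneg h.1 h.2 hs.1 hs.2)
      · exact le_rfl
    have : G a b p q s ≤ ∑ t ∈ Ico 1 (a+b), (if 2 ≤ t ∧ t + 2 ≤ a + b then wt a b p q t * Tf (a+b) t s else 0) := by
      rcases bound H ha hb hst hs.1 hs.2 with h | ⟨t, h1, h2, h3⟩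
      · exact h.trans (Finset.sum_nonneg hnn)
      · have hmem : t ∈ Ico 1 (a+b) := by rw [Finset.mem_Ico]; omega
        have := Finset.single_le_sum hnn hmem
        rw [if_pos ⟨h1, h2⟩] at this
        exact h3.trans this
    linarith
  -- sum over gaps
  have hsum : ∑ t ∈ Ico 1 (a+b), wt a b p q t * (∑ s ∈ Ico 1 (a+b), g s * cf (a+b) (κ t) s) ≤
      ∑ s ∈ Ico 1 (a+b), g s * fU a b (p s) (q s) := by
    have e2 : ∑ t ∈ Ico 1 (a+b), wt a b p q t * (∑ s ∈ Ico 1 (a+b), g s * cf (a+b) (κ t) s) =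
        ∑ s ∈ Ico 1 (a+b), g s * ∑ t ∈ Ico 1 (a+b), wt a b p q t * cf (a+b) (κ t) s := by
      simp_rw [Finset.mul_sum]
      rw [Finset.sum_comm]
      apply Finset.sum_congr rfl
      intro s _
      apply Finset.sum_congr rfl
      intro t _
      ring
    rw [e2]
    apply Finset.sum_le_sum
    intro s hs
    exact mul_le_mul_of_nonneg_left (hpt s hs) (hg s)
  by_contra hcon
  push Not at hcon
  have h1 : ∀ t ∈ Ico 1 (a+b), wt a b p q t * (∑ s ∈ Ico 1 (a+b), g s * fU a b (p s) (q s)) ≤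
      wt a b p q t * (∑ s ∈ Ico 1 (a+b), g s * cf (a+b) (κ t) s) := by
    intro t ht
    rw [Finset.mem_Ico] at ht
    exact mul_le_mul_of_nonneg_left (hcon (κ t) (hκ t)).le (hst t ht.1 ht.2)
  have h2 : ∃ t ∈ Ico 1 (a+b), 0 < wt a b p q t := by
    by_contra hc
    push Not at hc
    have := Finset.sum_nonpos hc
    rw [wt_sum H ha hb] at this
    linarith
  obtain ⟨t, ht, hpos⟩ := h2
  have h3 : ∑ t ∈ Ico 1 (a+b), wt a b p q t * (∑ s ∈ Ico 1 (a+b), g s * fU a b (p s) (q s)) <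
      ∑ t ∈ Ico 1 (a+b), wt a b p q t * (∑ s ∈ Ico 1 (a+b), g s * cf (a+b) (κ t) s) :=
    Finset.sum_lt_sum h1 ⟨t, ht, mul_lt_mul_of_pos_left (hcon (κ t) (hκ t)) hpos⟩
  rw [← Finset.sum_mul, wt_sum H ha hb, one_mul] at h3
  linarith

/-- potential -/
def Phi (a b : ℕ) (p q : ℕ → ℕ) : ℕ :=
  ∑ s ∈ Ico 1 (a+b), (p s * (a - p s) * (b-1) + q s * (b - q s) * (a-1))

lemma Phi_cast {a b : ℕ} {p q : ℕ → ℕ} (H : IsPath a b p q) (ha : 2 ≤ a) (hb : 2 ≤ b) :
    (Phi a b p q : ℝ) = ((a:ℝ)-1)*(b-1) * ∑ s ∈ Ico 1 (a+b), fU a b (p s) (q s) := by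
  unfold Phi
  rw [Finset.mul_sum]
  push_cast
  apply Finset.sum_congr rfl
  intro s hs
  rw [Finset.mem_Ico] at hs
  rw [Nat.cast_sub (H.p_le (by omega)), Nat.cast_sub (H.q_le (by omega)),
    Nat.cast_sub (by omega : 1 ≤ a), Nat.cast_sub (by omega : 1 ≤ b)]
  have ha' : (2:ℝ) ≤ a := by exact_mod_cast ha
  have hb' : (2:ℝ) ≤ b := by exact_mod_cast hb
  have h1 : (a:ℝ) - 1 ≠ 0 := by linarith
  have h2 : (b:ℝ) - 1 ≠ 0 := by linarith
  unfold fU
  push_cast
  field_simp

lemma fU_swap (a b p q : ℕ) : fU b a q p = fU a b p q := by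
  unfold fU; ring

lemma Phi_swap (a b : ℕ) (p q : ℕ → ℕ) : Phi b a q p = Phi a b p q := by
  unfold Phi
  rw [add_comm b a]
  apply Finset.sum_congr rfl
  intro s _
  ring

/-- an unstable transition of type A→B can be improved -/
lemma improve {a b : ℕ} {p q : ℕ → ℕ} (H : IsPath a b p q) (ha : 2 ≤ a) (hb : 2 ≤ b) {t : ℕ}
    (ht1 : 1 ≤ t) (ht : t < a + b) (h1 : p t = p (t-1) + 1) (h2 : q (t+1) = q t + 1)
    (h3 : (p t : ℝ) / a - (q t : ℝ) / b < 0) :
    ∃ p' q', IsPath a b p' q' ∧ Phi a b p' q' < Phi a b p q ∧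
      ∀ s ∈ Ico 1 (a+b), fU a b (p' s) (q' s) ≤ fU a b (p s) (q s) := by
  have ha' : (2:ℝ) ≤ a := by exact_mod_cast ha
  have hb' : (2:ℝ) ≤ b := by exact_mod_cast hb
  have hp2 : p (t+1) = p t := by
    rcases H.step t ht with h | h
    · omega
    · exact h.1
  have hq2 : q t = q (t-1) := by
    have := H.step (t-1) (by omega)
    rw [Nat.sub_add_cancel ht1] at this
    rcases this with h | h
    · exact h.2
    · omega
  let p' := Function.update p t (p t - 1)
  let q' := Function.update q t (q t + 1)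
  have hp't : p' t = p t - 1 := by simp [p']
  have hq't : q' t = q t + 1 := by simp [q']
  have hp'n : ∀ s, s ≠ t → p' s = p s := fun s hs => by simp [p', hs]
  have hq'n : ∀ s, s ≠ t → q' s = q s := fun s hs => by simp [q', hs]
  have H' : IsPath a b p' q' := by
    refine ⟨?_, ?_, ?_, ?_, ?_⟩
    · rw [hp'n 0 (by omega), H.p0]
    · rw [hq'n 0 (by omega), H.q0]
    · rw [hp'n _ (by omega), H.pn]
    · rw [hq'n _ (by omega), H.qn]
    · intro s hs
      rcases lt_trichotomy (s+1) t with h | h | h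
      · rw [hp'n s (by omega), hq'n s (by omega), hp'n (s+1) (by omega), hq'n (s+1) (by omega)]
        exact H.step s hs
      · rw [hp'n s (by omega), hq'n s (by omega), h, hp't, hq't]
        have : s = t - 1 := by omega
        subst this
        right
        omega
      · rcases Nat.eq_or_lt_of_le (by omega : t ≤ s) with h' | h'
        · subst h'
          rw [hp'n (t+1) (by omega), hq'n (t+1) (by omega), hp't, hq't]
          left
          omega
        · rw [hp'n s (by omega), hq'n s (by omega), hp'n (s+1) (by omega), hq'n (s+1) (by omega)]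
          exact H.step s hs
  have hqb : q t + 1 ≤ b := by
    have := H.q_le (t := t+1) (by omega)
    omega
  have hqbR : (q t : ℝ) + 1 ≤ b := by exact_mod_cast hqb
  have hstrict : fU a b (p' t) (q' t) < fU a b (p t) (q t) := by
    rw [hp't, hq't]
    have hp1 : 1 ≤ p t := by omega
    have hp1R : (1:ℝ) ≤ p t := by exact_mod_cast hp1
    have e : fU a b (p t) (q t) - fU a b (p t - 1) (q t + 1) =
        2*((q t : ℝ)*(a-1) - ((p t : ℝ)-1)*(b-1))/((a-1)*(b-1)) := by
      unfold fU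
      rw [Nat.cast_sub hp1]
      have h1 : (a:ℝ) - 1 ≠ 0 := by linarith
      have h2 : (b:ℝ) - 1 ≠ 0 := by linarith
      push_cast
      field_simp
      ring
    have h4 : (p t : ℝ) * b < q t * a := by
      have : (p t : ℝ)/a < (q t : ℝ)/b := by linarith
      rw [div_lt_div_iff₀ (by linarith) (by linarith)] at this
      exact this
    have h5 : 0 < 2*((q t : ℝ)*(a-1) - ((p t : ℝ)-1)*(b-1))/((a-1)*(b-1)) := by
      apply div_pos
      · nlinarith
      · apply mul_pos <;> linarith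
    linarith
  have hle : ∀ s ∈ Ico 1 (a+b), fU a b (p' s) (q' s) ≤ fU a b (p s) (q s) := by
    intro s _
    by_cases h : s = t
    · subst h; exact hstrict.le
    · rw [hp'n s h, hq'n s h]
  refine ⟨p', q', H', ?_, hle⟩
  have hlt : ∑ s ∈ Ico 1 (a+b), fU a b (p' s) (q' s) < ∑ s ∈ Ico 1 (a+b), fU a b (p s) (q s) :=
    Finset.sum_lt_sum hle ⟨t, by rw [Finset.mem_Ico]; omega, hstrict⟩
  have : (Phi a b p' q' : ℝ) < Phi a b p q := by
    rw [Phi_cast H ha hb, Phi_cast H' ha hb]
    apply mul_lt_mul_of_pos_left hlt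
    apply mul_pos <;> linarith
  exact_mod_cast this

theorem core {a b : ℕ} (ha : 2 ≤ a) (hb : 2 ≤ b) (g : ℕ → ℝ) (hg : ∀ s, 0 ≤ g s) :
    ∀ (N : ℕ) (p q : ℕ → ℕ), Phi a b p q = N → IsPath a b p q →
    ∃ k, (k = 0 ∨ (2 ≤ k ∧ k + 2 ≤ a + b)) ∧
      ∑ s ∈ Ico 1 (a+b), g s * cf (a+b) k s ≤ ∑ s ∈ Ico 1 (a+b), g s * fU a b (p s) (q s) := by
  intro N
  induction N using Nat.strong_induction_on with
  | _ N ih =>
    intro p q hN H
    by_cases hst : ∀ t, 1 ≤ t → t < a + b → 0 ≤ wt a b p q t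
    · exact core_stable H ha hb hst g hg
    push Not at hst
    obtain ⟨t, ht1, ht, hw⟩ := hst
    have himp : ∃ p' q', IsPath a b p' q' ∧ Phi a b p' q' < Phi a b p q ∧
        ∀ s ∈ Ico 1 (a+b), fU a b (p' s) (q' s) ≤ fU a b (p s) (q s) := by
      have hs1 := H.step (t-1) (by omega)
      rw [Nat.sub_add_cancel ht1] at hs1
      have hs2 := H.step t ht
      rcases hs1 with h1 | h1
      · rcases hs2 with h2 | h2
        · exfalso
          have e1 : (p t : ℝ) = p (t-1) + 1 := by exact_mod_cast h1.1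
          have e2 : (p (t+1) : ℝ) = p t + 1 := by exact_mod_cast h2.1
          unfold wt at hw
          rw [e2, e1] at hw
          have : 2 * ((p (t-1) : ℝ) + 1) - p (t-1) - (p (t-1) + 1 + 1) = 0 := by ring
          rw [this, mul_zero] at hw
          exact lt_irrefl _ hw
        · refine improve H ha hb ht1 ht h1.1 h2.2 ?_
          have e1 : (p t : ℝ) = p (t-1) + 1 := by exact_mod_cast h1.1
          have e2 : (p (t+1) : ℝ) = p t := by exact_mod_cast h2.1
          unfold wt at hw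
          have : 2 * (p t : ℝ) - p (t-1) - p (t+1) = 1 := by rw [e2, e1]; ring
          rw [this, mul_one] at hw
          exact hw
      · rcases hs2 with h2 | h2
        · obtain ⟨q', p', H', hP, hf⟩ := improve H.swap hb ha ht1 (by omega) h1.2 h2.1 (by
            have e1 : (p t : ℝ) = p (t-1) := by exact_mod_cast h1.1
            have e2 : (p (t+1) : ℝ) = p t + 1 := by exact_mod_cast h2.1
            unfold wt at hw
            have : 2 * (p t : ℝ) - p (t-1) - p (t+1) = -1 := by rw [e2, e1]; ring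
            rw [this] at hw
            linarith)
          refine ⟨p', q', H'.swap, ?_, ?_⟩
          · rw [Phi_swap a b p' q', Phi_swap a b p q] at hP
            exact hP
          · intro s hs
            have := hf s (by rw [add_comm b a]; exact hs)
            rw [fU_swap a b, fU_swap a b] at this
            exact this
        · exfalso
          have e1 : (p t : ℝ) = p (t-1) := by exact_mod_cast h1.1
          have e2 : (p (t+1) : ℝ) = p t := by exact_mod_cast h2.1
          unfold wt at hw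
          rw [e2, e1] at hw
          have : 2 * (p (t-1) : ℝ) - p (t-1) - p (t-1) = 0 := by ring
          rw [this, mul_zero] at hw
          exact lt_irrefl _ hw
    obtain ⟨p', q', H', hP, hf⟩ := himp
    obtain ⟨k, hk, hle⟩ := ih (Phi a b p' q') (by omega) p' q' rfl H'
    refine ⟨k, hk, hle.trans ?_⟩
    apply Finset.sum_le_sum
    intro s hs
    exact mul_le_mul_of_nonneg_left (hf s hs) (hg s)

end Pool.Agent.Lib.MP_e22fa6_co
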