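import Mathlib
import Pool.Agent.Lib.MP_e22fa6_co.Core

namespace Pool.Agent.Lib.MP_e22fa6_co

open Finset

/-- discrete concavity of the coefficient of sorted cuts, away from the gap itself -/
lemma cf_conc {n k s : ℕ} (hk1 : 1 ≤ k) (hk : k < n) (hs1 : 1 ≤ s) (hs : s < n) (hne : s ≠ k) :
    cf n (k-1) s + cf n (k+1) s ≤ 2 * cf n k s := by
  have hsR : (1:ℝ) ≤ s := by exact_mod_cast hs1
  have hsR2 : (s:ℝ) + 1 ≤ n := by exact_mod_cast hs
  have hkm : ((k-1 : ℕ):ℝ) = k - 1 := by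
    rw [Nat.cast_sub hk1]; simp
  rcases lt_or_gt_of_ne hne with h | h
  · -- s < k
    have hskR : (s:ℝ) + 1 ≤ k := by exact_mod_cast h
    unfold cf
    rw [if_pos (by omega), if_pos (by omega), if_pos (by omega), hkm]
    push_cast
    rcases Nat.lt_or_ge k 3 with h3 | h3
    · have hk2 : k = 2 := by omega
      have hs' : s = 1 := by omega
      subst hk2 hs'
      norm_num
    · have hk3 : (3:ℝ) ≤ k := by exact_mod_cast h3
      have e1 : (s:ℝ)*((k:ℝ)-1-s)/(k-1-1) = s * (1 - (s-1)/(k-2)) := by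
        have : (k:ℝ) - 2 ≠ 0 := by linarith
        have : (k:ℝ) - 1 - 1 ≠ 0 := by linarith
        field_simp
        ring
      have e2 : (s:ℝ)*((k:ℝ)+1-s)/(k+1-1) = s * (1 - (s-1)/k) := by
        have : (k:ℝ) ≠ 0 := by linarith
        have : (k:ℝ) + 1 - 1 ≠ 0 := by linarith
        field_simp
        ring
      have e3 : (s:ℝ)*((k:ℝ)-s)/(k-1) = s * (1 - (s-1)/(k-1)) := by
        have : (k:ℝ) - 1 ≠ 0 := by linarith
        field_simp
        ring
      rw [e1, e2, e3]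
      have key : 2/((k:ℝ)-1) ≤ 1/((k:ℝ)-2) + 1/(k:ℝ) := by
        rw [div_add_div _ _ (by linarith) (by linarith), div_le_div_iff₀ (by linarith) (by nlinarith)]
        nlinarith
      have h4 : 0 ≤ (s:ℝ)*(s-1) := mul_nonneg (by linarith) (by linarith)
      have := mul_le_mul_of_nonneg_left key h4
      have e4 : (s:ℝ) * (1 - (s-1)/(k-2)) + s * (1 - (s-1)/k) =
        2*s - s*(s-1)*(1/(k-2) + 1/k) := by ring
      have e5 : 2 * ((s:ℝ) * (1 - (s-1)/(k-1))) = 2*s - s*(s-1)*(2/(k-1)) := by ring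
      rw [e4, e5]
      linarith
  · -- k < s
    have hskR : (k:ℝ) + 1 ≤ s := by exact_mod_cast h
    unfold cf
    rw [if_neg (by omega), if_neg (by omega : ¬ s ≤ k), hkm]
    rcases Nat.lt_or_ge (k+1) s with h3 | h3
    · rw [if_neg (by omega)]
      have h3R : (k:ℝ) + 2 ≤ s := by exact_mod_cast h3
      push_cast
      have e1 : ((s:ℝ)-(k-1))*(n-s)/(n-(k-1)-1) = (n-s) * (1 - (n-1-s)/(n-k)) := by
        have : (n:ℝ) - k ≠ 0 := by linarith
        have : (n:ℝ) - (k-1) - 1 ≠ 0 := by linarith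
        field_simp
        ring
      have e2 : ((s:ℝ)-(k+1))*(n-s)/(n-(k+1)-1) = (n-s) * (1 - (n-1-s)/(n-k-2)) := by
        have : (n:ℝ) - k - 2 ≠ 0 := by linarith
        have : (n:ℝ) - (k+1) - 1 ≠ 0 := by linarith
        field_simp
        ring
      have e3 : ((s:ℝ)-k)*(n-s)/(n-k-1) = (n-s) * (1 - (n-1-s)/(n-k-1)) := by
        have : (n:ℝ) - k - 1 ≠ 0 := by linarith
        field_simp
        ring
      rw [e1, e2, e3]
      have key : 2/((n:ℝ)-k-1) ≤ 1/((n:ℝ)-k) + 1/((n:ℝ)-k-2) := by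
        rw [div_add_div _ _ (by linarith) (by linarith), div_le_div_iff₀ (by linarith) (by nlinarith)]
        nlinarith
      have h4 : 0 ≤ ((n:ℝ)-s)*(n-1-s) := mul_nonneg (by linarith) (by linarith)
      have := mul_le_mul_of_nonneg_left key h4
      have e4 : ((n:ℝ)-s) * (1 - (n-1-s)/(n-k)) + (n-s) * (1 - (n-1-s)/(n-k-2)) =
        2*(n-s) - (n-s)*(n-1-s)*(1/(n-k) + 1/(n-k-2)) := by ring
      have e5 : 2 * (((n:ℝ)-s) * (1 - (n-1-s)/(n-k-1))) = 2*(n-s) - (n-s)*(n-1-s)*(2/(n-k-1)) := by ring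
      rw [e4, e5]
      linarith
    · -- s = k + 1
      have hs' : s = k + 1 := by omega
      subst hs'
      rw [if_pos le_rfl]
      push_cast
      push_cast at hsR2
      have e1 : ((k:ℝ)+1)*(k+1-(k+1))/(k+1-1) = 0 := by simp
      rw [e1]
      have e2 : (k:ℝ)+1-k = 1 := by ring
      have e3 : (k:ℝ)+1-(k-1) = 2 := by ring
      rw [e2, e3]
      have e4 : (n:ℝ) - (k-1) - 1 = n - k := by ring
      rw [e4]
      have e5 : (n:ℝ) - (k+1) = n-k-1 := by ring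
      rw [e5]
      have hn : (0:ℝ) < n - k - 1 := by linarith
      have e6 : 2 * (1*((n:ℝ)-k-1)/(n-k-1)) = 2 := by
        field_simp
      rw [e6]
      have : 2*((n:ℝ)-k-1)/(n-k) ≤ 2 := by
        rw [div_le_iff₀ (by linarith)]
        linarith
      linarith

/-- three point inequality 0, 2, 3 -/
lemma cf_conc2 {n s : ℕ} (hn : 5 ≤ n) (hs1 : 1 ≤ s) (hs : s < n) (hne : s ≠ 2) :
    cf n 0 s + 2 * cf n 3 s ≤ 3 * cf n 2 s := by
  have hnR : (5:ℝ) ≤ n := by exact_mod_cast hn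
  have hsR2 : (s:ℝ) + 1 ≤ n := by exact_mod_cast hs
  rw [cf_zero]
  unfold cf
  rcases Nat.lt_or_ge s 3 with h | h
  · have : s = 1 := by omega
    subst this
    norm_num
    rw [div_self (by linarith)]
    norm_num
  · have hsR : (3:ℝ) ≤ s := by exact_mod_cast h
    rw [if_neg (by omega : ¬ s ≤ 2)]
    have e0 : (s:ℝ)*(n-s)/(n-1) = (n-s) * (1 - (n-1-s)/(n-1)) := by
      have : (n:ℝ) - 1 ≠ 0 := by linarith
      field_simp
      ring
    have e2 : ((s:ℝ)-(2:ℕ))*(n-s)/(n-(2:ℕ)-1) = (n-s) * (1 - (n-1-s)/(n-3)) := by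
      have : (n:ℝ) - 3 ≠ 0 := by linarith
      have : (n:ℝ) - (2:ℕ) - 1 ≠ 0 := by push_cast; linarith
      field_simp
      push_cast
      ring
    have e3 : (if s ≤ 3 then (s:ℝ)*((3:ℕ)-s)/((3:ℕ)-1) else ((s:ℝ)-(3:ℕ))*(n-s)/(n-(3:ℕ)-1))
        = (n-s) * (1 - (n-1-s)/(n-4)) := by
      split_ifs with h'
      · have : s = 3 := by omega
        subst this
        have : (n:ℝ) - 4 ≠ 0 := by linarith
        push_cast
        have e : (n:ℝ) - 1 - 3 = n - 4 := by ring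
        rw [e, div_self this]
        ring
      · have : (n:ℝ) - 4 ≠ 0 := by linarith
        have : (n:ℝ) - (3:ℕ) - 1 ≠ 0 := by push_cast; linarith
        field_simp
        push_cast
        ring
    rw [e0, e2, e3]
    have key : 3/((n:ℝ)-3) ≤ 1/((n:ℝ)-1) + 2/((n:ℝ)-4) := by
      rw [div_add_div _ _ (by linarith) (by linarith), div_le_div_iff₀ (by linarith) (by nlinarith)]
      nlinarith
    have h4 : 0 ≤ ((n:ℝ)-s)*(n-1-s) := mul_nonneg (by linarith) (by linarith)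
    have := mul_le_mul_of_nonneg_left key h4
    have e4 : ((n:ℝ)-s) * (1 - (n-1-s)/(n-1)) + 2 * ((n-s) * (1 - (n-1-s)/(n-4))) =
        3*(n-s) - (n-s)*(n-1-s)*(1/(n-1) + 2/(n-4)) := by ring
    have e5 : 3 * (((n:ℝ)-s) * (1 - (n-1-s)/(n-3))) = 3*(n-s) - (n-s)*(n-1-s)*(3/(n-3)) := by ring
    rw [e4, e5]
    linarith

lemma cf_rev {n k s : ℕ} (hk : 1 ≤ k) (hk2 : k < n) (hs : s ≤ n) :
    cf n (n-k) (n-s) = cf n k s := by
  have c1 : ((n - k : ℕ) : ℝ) = n - k := Nat.cast_sub (by omega)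
  have c2 : ((n - s : ℕ) : ℝ) = n - s := Nat.cast_sub (by omega)
  unfold cf
  rw [c1, c2]
  rcases lt_trichotomy s k with h | h | h
  · rw [if_neg (by omega), if_pos (by omega)]
    have : (n:ℝ) - (n-k) - 1 = k - 1 := by ring
    rw [this]
    ring
  · subst h
    rw [if_pos le_rfl, if_pos le_rfl]
    simp
  · rw [if_pos (by omega), if_neg (by omega)]
    have : (n:ℝ) - k - (n - s) = s - k := by ring
    rw [this]
    ring

lemma cf_rev0 {n s : ℕ} (hs : s ≤ n) : cf n 0 (n-s) = cf n 0 s := by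
  have c2 : ((n - s : ℕ) : ℝ) = n - s := Nat.cast_sub (by omega)
  rw [cf_zero, cf_zero, c2]
  ring

lemma cf_conc3 {n s : ℕ} (hn : 5 ≤ n) (hs1 : 1 ≤ s) (hs : s < n) (hne : s ≠ n-2) :
    cf n 0 s + 2 * cf n (n-3) s ≤ 3 * cf n (n-2) s := by
  have h := cf_conc2 (n := n) (s := n-s) hn (by omega) (by omega) (by omega)
  have e1 := cf_rev0 (n := n) (s := s) (by omega)
  have e2 := cf_rev (n := n) (k := n-3) (s := s) (by omega) (by omega) (by omega)
  have e3 := cf_rev (n := n) (k := n-2) (s := s) (by omega) (by omega) (by omega)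
  have i1 : n - (n-3) = 3 := by omega
  have i2 : n - (n-2) = 2 := by omega
  rw [i1] at e2
  rw [i2] at e3
  rw [e1, e2, e3] at h
  exact h

lemma cf_conc4 {s : ℕ} (hs1 : 1 ≤ s) (hs : s < 4) (hne : s ≠ 2) : cf 4 0 s ≤ cf 4 2 s := by
  rw [cf_zero]
  unfold cf
  have : s = 1 ∨ s = 3 := by omega
  rcases this with h | h <;> subst h <;> norm_num

/-- cost of the sorted cut at `k` (half of the social cost) -/
noncomputable def Cc (n : ℕ) (g : ℕ → ℝ) (k : ℕ) : ℝ := ∑ s ∈ Ico 1 n, g s * cf n k s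

lemma cf_top {n s : ℕ} (hs : s < n) : cf n n s = cf n 0 s := by
  rw [cf_zero]; unfold cf; rw [if_pos hs.le]

lemma Cc_top (n : ℕ) (g : ℕ → ℝ) : Cc n g n = Cc n g 0 := by
  unfold Cc
  apply Finset.sum_congr rfl
  intro s hs
  rw [Finset.mem_Ico] at hs
  rw [cf_top hs.2]

lemma Cc_conc {n k : ℕ} {g : ℕ → ℝ} (hg : ∀ s, 0 ≤ g s) (hk1 : 1 ≤ k) (hk : k < n) (h0 : g k = 0) :
    Cc n g (k-1) + Cc n g (k+1) ≤ 2 * Cc n g k := by
  unfold Cc
  rw [← Finset.sum_add_distrib, Finset.mul_sum]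
  apply Finset.sum_le_sum
  intro s hs
  rw [Finset.mem_Ico] at hs
  by_cases h : s = k
  · subst h; rw [h0]; simp
  · have := cf_conc hk1 hk hs.1 hs.2 h
    have := mul_le_mul_of_nonneg_left this (hg s)
    linarith

lemma Cc_conc2 {n : ℕ} {g : ℕ → ℝ} (hg : ∀ s, 0 ≤ g s) (hn : 5 ≤ n) (h0 : g 2 = 0) :
    Cc n g 0 + 2 * Cc n g 3 ≤ 3 * Cc n g 2 := by
  unfold Cc
  rw [Finset.mul_sum, ← Finset.sum_add_distrib, Finset.mul_sum]
  apply Finset.sum_le_sum
  intro s hs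
  rw [Finset.mem_Ico] at hs
  by_cases h : s = 2
  · subst h; rw [h0]; simp
  · have := cf_conc2 hn hs.1 hs.2 h
    have := mul_le_mul_of_nonneg_left this (hg s)
    linarith

lemma Cc_conc3 {n : ℕ} {g : ℕ → ℝ} (hg : ∀ s, 0 ≤ g s) (hn : 5 ≤ n) (h0 : g (n-2) = 0) :
    Cc n g 0 + 2 * Cc n g (n-3) ≤ 3 * Cc n g (n-2) := by
  unfold Cc
  rw [Finset.mul_sum, ← Finset.sum_add_distrib, Finset.mul_sum]
  apply Finset.sum_le_sum
  intro s hs
  rw [Finset.mem_Ico] at hs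
  by_cases h : s = n-2
  · subst h; rw [h0]; simp
  · have := cf_conc3 hn hs.1 hs.2 h
    have := mul_le_mul_of_nonneg_left this (hg s)
    linarith

lemma Cc_conc4 {g : ℕ → ℝ} (hg : ∀ s, 0 ≤ g s) (h0 : g 2 = 0) :
    Cc 4 g 0 ≤ Cc 4 g 2 := by
  unfold Cc
  apply Finset.sum_le_sum
  intro s hs
  rw [Finset.mem_Ico] at hs
  by_cases h : s = 2
  · subst h; rw [h0]; simp
  · exact mul_le_mul_of_nonneg_left (cf_conc4 hs.1 hs.2 h) (hg s)

/-- best sorted structure when singletons are allowed (cost 0) -/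
lemma best_HIS {n : ℕ} (hn : 2 ≤ n) {g : ℕ → ℝ} (hg : ∀ s, 0 ≤ g s) :
    ∃ k, k < n ∧ (k = 0 ∨ 0 < g k) ∧ ∀ j, j < n → Cc n g k ≤ Cc n g j := by
  classical
  obtain ⟨k0, hk0, hmin⟩ := Finset.exists_min_image (Finset.range n) (Cc n g) ⟨0, by simp; omega⟩
  have hex : ∃ k, k < n ∧ ∀ j, j < n → Cc n g k ≤ Cc n g j :=
    ⟨k0, by simpa using hk0, fun j hj => hmin j (by simpa using hj)⟩
  have hspec := Nat.find_spec hex
  set k := Nat.find hex with hk
  refine ⟨k, hspec.1, ?_, hspec.2⟩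
  rcases Nat.eq_zero_or_pos k with h | h
  · left; exact h
  right
  by_contra hcon
  have h0 : g k = 0 := le_antisymm (not_lt.mp hcon) (hg k)
  have hc := Cc_conc hg h hspec.1 h0
  have h1 : Cc n g k ≤ Cc n g (k+1) := by
    rcases Nat.lt_or_ge (k+1) n with h' | h'
    · exact hspec.2 _ h'
    · have : k + 1 = n := by omega
      rw [this, Cc_top]
      exact hspec.2 0 (by omega)
  have h2 : Cc n g (k-1) ≤ Cc n g k := by linarith
  exact Nat.find_min hex (m := k-1) (by omega) ⟨by omega, fun j hj => h2.trans (hspec.2 j hj)⟩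

/-- best sorted structure when singletons are forbidden -/
lemma best_UIS {n : ℕ} {g : ℕ → ℝ} (hg : ∀ s, 0 ≤ g s) :
    ∃ k, (k = 0 ∨ (2 ≤ k ∧ k + 2 ≤ n ∧ 0 < g k)) ∧
      ∀ j, (j = 0 ∨ (2 ≤ j ∧ j + 2 ≤ n)) → Cc n g k ≤ Cc n g j := by
  classical
  let S := (Finset.range (n+1)).filter (fun j => j = 0 ∨ (2 ≤ j ∧ j + 2 ≤ n))
  have hS : ∀ j, j ∈ S ↔ (j = 0 ∨ (2 ≤ j ∧ j + 2 ≤ n)) := by
    intro j
    simp only [S, Finset.mem_filter, Finset.mem_range]
    omega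
  obtain ⟨k0, hk0, hmin⟩ := Finset.exists_min_image S (Cc n g) ⟨0, by rw [hS]; left; rfl⟩
  have hex : ∃ k, (k = 0 ∨ (2 ≤ k ∧ k + 2 ≤ n)) ∧
      ∀ j, (j = 0 ∨ (2 ≤ j ∧ j + 2 ≤ n)) → Cc n g k ≤ Cc n g j :=
    ⟨k0, (hS _).1 hk0, fun j hj => hmin j ((hS _).2 hj)⟩
  have hspec := Nat.find_spec hex
  set k := Nat.find hex with hk
  refine ⟨k, ?_, hspec.2⟩
  rcases hspec.1 with h | ⟨h2, h3⟩
  · left; exact h
  right
  refine ⟨h2, h3, ?_⟩
  by_contra hcon
  have h0 : g k = 0 := le_antisymm (not_lt.mp hcon) (hg k)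
  have hmin0 : ∀ j, j < k → (j = 0 ∨ (2 ≤ j ∧ j + 2 ≤ n)) → Cc n g k < Cc n g j := by
    intro j hj hj2
    by_contra hc
    push Not at hc
    exact Nat.find_min hex hj ⟨hj2, fun i hi => hc.trans (hspec.2 i hi)⟩
  have hz := hmin0 0 (by omega) (Or.inl rfl)
  rcases Nat.lt_or_ge n 5 with hn | hn
  · have hn4 : n = 4 := by omega
    have hk2 : k = 2 := by omega
    rw [hk2] at h0 hz
    subst hn4
    have := Cc_conc4 hg h0
    linarith
  rcases Nat.eq_or_lt_of_le h2 with hk2 | hk2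
  · rw [← hk2] at h0 hz
    have h5 := Cc_conc2 hg hn h0
    have h6 := hspec.2 3 (Or.inr ⟨by omega, by omega⟩)
    rw [← hk2] at h6
    linarith
  rcases Nat.eq_or_lt_of_le h3 with hk3 | hk3
  · have hkn : k = n - 2 := by omega
    rw [hkn] at h0 hz
    have h5 := Cc_conc3 hg hn h0
    have h6 := hspec.2 (n-3) (Or.inr ⟨by omega, by omega⟩)
    rw [hkn] at h6
    linarith
  · have h5 := Cc_conc hg (by omega) (by omega : k < n) h0
    have h6 := hspec.2 (k+1) (Or.inr ⟨by omega, by omega⟩)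
    have h7 := hmin0 (k-1) (by omega) (Or.inr ⟨by omega, by omega⟩)
    linarith

end Pool.Agent.Lib.MP_e22fa6_co
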