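import Mathlib
import Pool.Agent.Lib.MP_e22fa6_co.Core
import Pool.Agent.Lib.MP_e22fa6_co.Cuts

namespace Pool.Agent.Lib.MP_e22fa6_co

open Finset

/-- number of elements of `A` with index less than `t` -/
def pc {n : ℕ} (A : Finset (Fin n)) (t : ℕ) : ℕ := (A.filter (fun i => i.val < t)).card

lemma pc_zero {n : ℕ} (A : Finset (Fin n)) : pc A 0 = 0 := by simp [pc]

lemma pc_top {n : ℕ} (A : Finset (Fin n)) : pc A n = A.card := by
  unfold pc
  congr 1
  apply Finset.filter_true_of_mem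
  intro i _
  exact i.isLt

lemma pc_succ_mem {n : ℕ} (A : Finset (Fin n)) {t : ℕ} (ht : t < n) (h : (⟨t, ht⟩ : Fin n) ∈ A) :
    pc A (t+1) = pc A t + 1 := by
  unfold pc
  have : A.filter (fun i => i.val < t+1) = insert (⟨t, ht⟩ : Fin n) (A.filter (fun i => i.val < t)) := by
    ext i
    simp only [Finset.mem_filter, Finset.mem_insert, Fin.ext_iff]
    constructor
    · rintro ⟨h1, h2⟩
      rcases Nat.lt_succ_iff_lt_or_eq.mp h2 with h3 | h3
      · right; exact ⟨h1, h3⟩
      · left; exact h3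
    · rintro (h1 | ⟨h1, h2⟩)
      · have : i = ⟨t, ht⟩ := Fin.ext h1
        subst this
        exact ⟨h, by simp⟩
      · exact ⟨h1, by omega⟩
  rw [this, Finset.card_insert_of_notMem]
  simp

lemma pc_succ_notMem {n : ℕ} (A : Finset (Fin n)) {t : ℕ} (ht : t < n) (h : (⟨t, ht⟩ : Fin n) ∉ A) :
    pc A (t+1) = pc A t := by
  unfold pc
  congr 1
  ext i
  simp only [Finset.mem_filter]
  constructor
  · rintro ⟨h1, h2⟩
    refine ⟨h1, ?_⟩
    rcases Nat.lt_succ_iff_lt_or_eq.mp h2 with h3 | h3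
    · exact h3
    · exfalso
      apply h
      have : i = ⟨t, ht⟩ := Fin.ext h3
      rw [← this]; exact h1
  · rintro ⟨h1, h2⟩
    exact ⟨h1, by omega⟩

lemma isPath_pc {n : ℕ} (A : Finset (Fin n)) : IsPath A.card Aᶜ.card (pc A) (pc Aᶜ) := by
  have hn : A.card + Aᶜ.card = n := by
    rw [Finset.card_add_card_compl]; simp
  refine ⟨pc_zero _, pc_zero _, ?_, ?_, ?_⟩
  · rw [hn, pc_top]
  · rw [hn, pc_top]
  · intro t ht
    rw [hn] at ht
    by_cases h : (⟨t, ht⟩ : Fin n) ∈ A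
    · left
      exact ⟨pc_succ_mem A ht h, pc_succ_notMem Aᶜ ht (by simpa using h)⟩
    · right
      exact ⟨pc_succ_notMem A ht h, pc_succ_mem Aᶜ ht (by simpa using h)⟩

/-- gaps -/
noncomputable def gap {n : ℕ} (v : Fin n → ℝ) (s : ℕ) : ℝ :=
  if h : 1 ≤ s ∧ s < n then v ⟨s, h.2⟩ - v ⟨s-1, by omega⟩ else 0

lemma gap_nonneg {n : ℕ} {v : Fin n → ℝ} (hv : Monotone v) (s : ℕ) : 0 ≤ gap v s := by
  unfold gap
  split_ifs with h
  · rw [sub_nonneg]
    apply hv
    rw [Fin.le_def]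
    simp
  · exact le_rfl

lemma telescope {n : ℕ} (v : Fin n → ℝ) (i : Fin n) : ∀ m (h : i.val + m < n),
    v ⟨i.val + m, h⟩ - v i = ∑ s ∈ Ico (i.val+1) (i.val+m+1), gap v s := by
  intro m
  induction m with
  | zero => intro h; simp
  | succ m ih =>
    intro h
    change v ⟨i.val+m+1, h⟩ - v i = ∑ s ∈ Ico (i.val+1) (i.val+m+1+1), gap v s
    rw [Finset.sum_Ico_succ_top (by omega), ← ih (by omega)]
    have : gap v (i.val+m+1) = v ⟨i.val+m+1, by omega⟩ - v ⟨i.val+m, by omega⟩ := by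
      unfold gap
      rw [dif_pos ⟨by omega, by omega⟩]
      simp
    rw [this]
    ring_nf

lemma sub_eq_sum {n : ℕ} (v : Fin n → ℝ) {i j : Fin n} (hij : i ≤ j) :
    v j - v i = ∑ s ∈ Ico 1 n, gap v s * (if i.val < s ∧ s ≤ j.val then 1 else 0) := by
  have h1 : i.val ≤ j.val := hij
  have h := telescope v i (j.val - i.val) (by omega)
  have e : i.val + (j.val - i.val) = j.val := by omega
  have e2 : (⟨i.val + (j.val - i.val), by omega⟩ : Fin n) = j := Fin.ext e
  rw [e2] at h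
  rw [h, e]
  simp_rw [mul_ite, mul_one, mul_zero]
  rw [← Finset.sum_filter]
  apply Finset.sum_congr _ (fun _ _ => rfl)
  ext s
  simp only [Finset.mem_Ico, Finset.mem_filter]
  omega

lemma abs_eq_sum {n : ℕ} {v : Fin n → ℝ} (hv : Monotone v) (i j : Fin n) :
    |v i - v j| = ∑ s ∈ Ico 1 n, gap v s *
      ((if i.val < s ∧ s ≤ j.val then 1 else 0) + (if j.val < s ∧ s ≤ i.val then 1 else 0)) := by
  simp_rw [mul_add]
  rw [Finset.sum_add_distrib]
  rcases le_total i j with h | h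
  · have h1 : i.val ≤ j.val := h
    rw [← sub_eq_sum v h, abs_sub_comm, abs_of_nonneg (sub_nonneg.mpr (hv h))]
    have : ∑ s ∈ Ico 1 n, gap v s * (if j.val < s ∧ s ≤ i.val then (1:ℝ) else 0) = 0 := by
      apply Finset.sum_eq_zero
      intro s _
      rw [if_neg (by omega), mul_zero]
    rw [this, add_zero]
  · have h1 : j.val ≤ i.val := h
    rw [← sub_eq_sum v h, abs_of_nonneg (sub_nonneg.mpr (hv h))]
    have : ∑ s ∈ Ico 1 n, gap v s * (if i.val < s ∧ s ≤ j.val then (1:ℝ) else 0) = 0 := by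
      apply Finset.sum_eq_zero
      intro s _
      rw [if_neg (by omega), mul_zero]
    rw [this, zero_add]

lemma sum_ind {n : ℕ} (A : Finset (Fin n)) (s : ℕ) :
    ∑ i ∈ A, ∑ j ∈ A, (if i.val < s ∧ s ≤ j.val then (1:ℝ) else 0) =
      (pc A s : ℝ) * ((A.card : ℝ) - pc A s) := by
  have e1 : ∀ i j : Fin n, (if i.val < s ∧ s ≤ j.val then (1:ℝ) else 0) =
      (if i.val < s then (1:ℝ) else 0) * (if s ≤ j.val then (1:ℝ) else 0) := by
    intro i j
    by_cases h1 : i.val < s <;> by_cases h2 : s ≤ j.val <;> simp [h1, h2]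
  simp_rw [e1]
  rw [← Finset.sum_mul_sum]
  have e2 : ∑ i ∈ A, (if i.val < s then (1:ℝ) else 0) = pc A s := by
    rw [← Finset.sum_filter]
    simp [pc]
  have e3 : ∑ j ∈ A, (if s ≤ j.val then (1:ℝ) else 0) = (A.card : ℝ) - pc A s := by
    have : ∀ j : Fin n, (if s ≤ j.val then (1:ℝ) else 0) = 1 - (if j.val < s then (1:ℝ) else 0) := by
      intro j
      by_cases h : s ≤ j.val
      · rw [if_pos h, if_neg (by omega)]; ring
      · rw [if_neg h, if_pos (by omega)]; ring
    simp_rw [this]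
    rw [Finset.sum_sub_distrib, e2]
    simp
  rw [e2, e3]

/-- sum of all pairwise distances (ordered pairs) -/
noncomputable def Dd {n : ℕ} (v : Fin n → ℝ) (A : Finset (Fin n)) : ℝ :=
  ∑ i ∈ A, ∑ j ∈ A, |v i - v j|

lemma Dd_eq {n : ℕ} {v : Fin n → ℝ} (hv : Monotone v) (A : Finset (Fin n)) :
    Dd v A = 2 * ∑ s ∈ Ico 1 n, gap v s * ((pc A s : ℝ) * ((A.card : ℝ) - pc A s)) := by
  unfold Dd
  simp_rw [abs_eq_sum hv]
  have e1 : ∀ i ∈ A, ∑ j ∈ A, ∑ s ∈ Ico 1 n, gap v s *
      ((if i.val < s ∧ s ≤ j.val then (1:ℝ) else 0) + (if j.val < s ∧ s ≤ i.val then 1 else 0)) =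
      ∑ s ∈ Ico 1 n, ∑ j ∈ A, gap v s *
      ((if i.val < s ∧ s ≤ j.val then (1:ℝ) else 0) + (if j.val < s ∧ s ≤ i.val then 1 else 0)) := by
    intro i _
    rw [Finset.sum_comm]
  rw [Finset.sum_congr rfl e1, Finset.sum_comm, Finset.mul_sum]
  apply Finset.sum_congr rfl
  intro s _
  simp_rw [← Finset.mul_sum]
  have e2 : ∑ i ∈ A, ∑ j ∈ A, ((if i.val < s ∧ s ≤ j.val then (1:ℝ) else 0) +
      (if j.val < s ∧ s ≤ i.val then 1 else 0)) = 2 * ((pc A s : ℝ) * ((A.card : ℝ) - pc A s)) := by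
    simp_rw [Finset.sum_add_distrib]
    have e3 : ∑ i ∈ A, ∑ j ∈ A, (if j.val < s ∧ s ≤ i.val then (1:ℝ) else 0) =
        ∑ i ∈ A, ∑ j ∈ A, (if i.val < s ∧ s ≤ j.val then (1:ℝ) else 0) := by
      rw [Finset.sum_comm]
    rw [e3, sum_ind]
    ring
  rw [e2]
  ring

/-- real social cost, with the convention that singletons have cost zero -/
noncomputable def Sr {n : ℕ} (v : Fin n → ℝ) (A : Finset (Fin n)) : ℝ :=
  Dd v A / ((A.card : ℝ) - 1) + Dd v Aᶜ / ((Aᶜ.card : ℝ) - 1)

lemma Sr_eq {n : ℕ} {v : Fin n → ℝ} (hv : Monotone v) (A : Finset (Fin n)) :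
    Sr v A = 2 * ∑ s ∈ Ico 1 n, gap v s * fU A.card Aᶜ.card (pc A s) (pc Aᶜ s) := by
  unfold Sr
  rw [Dd_eq hv, Dd_eq hv, mul_div_assoc, mul_div_assoc, ← mul_add, Finset.sum_div, Finset.sum_div,
    ← Finset.sum_add_distrib]
  congr 1
  apply Finset.sum_congr rfl
  intro s _
  unfold fU
  ring

/-- initial segment -/
def seg (n k : ℕ) : Finset (Fin n) := Finset.univ.filter (fun i => i.val < k)

lemma pc_seg {n k s : ℕ} (hk : k ≤ n) (hs : s ≤ n) : pc (seg n k) s = min s k := by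
  unfold pc seg
  rw [Finset.filter_filter]
  have : (Finset.univ.filter (fun a : Fin n => a.val < k ∧ a.val < s)) =
      Finset.univ.filter (fun a : Fin n => a.val < min s k) := by
    apply Finset.filter_congr
    intro i _
    omega
  rw [this]
  rw [Fin.card_filter_val_lt]
  omega

lemma card_seg {n k : ℕ} (hk : k ≤ n) : (seg n k).card = k := by
  have := pc_seg (n := n) (k := k) (s := n) hk le_rfl
  rw [pc_top] at this
  omega

lemma Sr_seg {n k : ℕ} {v : Fin n → ℝ} (hv : Monotone v) (hk : k ≤ n) :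
    Sr v (seg n k) = 2 * Cc n (gap v) k := by
  rw [Sr_eq hv]
  unfold Cc
  congr 1
  apply Finset.sum_congr rfl
  intro s hs
  rw [Finset.mem_Ico] at hs
  congr 1
  have h1 : (seg n k).card = k := card_seg hk
  have h2 : (seg n k)ᶜ.card = n - k := by
    rw [Finset.card_compl, h1]; simp
  have h3 := pc_seg (n := n) (k := k) (s := s) hk hs.2.le
  have h4 := (isPath_pc (seg n k)).sum_eq s (by rw [h1, h2]; omega)
  have h5 : ((n - k : ℕ) : ℝ) = n - k := Nat.cast_sub hk
  rw [h1, h2]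
  unfold fU cf
  split_ifs with h
  · have e1 : pc (seg n k) s = s := by omega
    have e2 : pc (seg n k)ᶜ s = 0 := by omega
    rw [e1, e2]
    simp
  · have e1 : pc (seg n k) s = k := by omega
    have e2 : pc (seg n k)ᶜ s = s - k := by omega
    have e3 : ((s - k : ℕ) : ℝ) = s - k := Nat.cast_sub (by omega)
    rw [e1, e2, e3, h5]
    simp

lemma Sr_compl {n : ℕ} (v : Fin n → ℝ) (A : Finset (Fin n)) : Sr v Aᶜ = Sr v A := by
  unfold Sr
  rw [compl_compl]
  ring

lemma Sr_univ {n : ℕ} {v : Fin n → ℝ} (hv : Monotone v) :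
    Sr v Finset.univ = 2 * Cc n (gap v) 0 := by
  have : seg n n = Finset.univ := by
    unfold seg
    apply Finset.filter_true_of_mem
    intro i _
    exact i.isLt
  rw [← this, Sr_seg hv le_rfl, Cc_top]

/-- any structure without singletons is dominated by a sorted one without singletons -/
lemma dom_no_single {n : ℕ} {v : Fin n → ℝ} (hv : Monotone v) (A : Finset (Fin n))
    (h1 : A.card ≠ 1) (h2 : Aᶜ.card ≠ 1) :
    ∃ k, (k = 0 ∨ (2 ≤ k ∧ k + 2 ≤ n)) ∧ 2 * Cc n (gap v) k ≤ Sr v A := by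
  have hn : A.card + Aᶜ.card = n := by
    rw [Finset.card_add_card_compl]; simp
  rcases Nat.eq_zero_or_pos A.card with h | h
  · refine ⟨0, Or.inl rfl, ?_⟩
    rw [Finset.card_eq_zero] at h
    subst h
    rw [← Sr_compl, Finset.compl_empty, Sr_univ hv]
  rcases Nat.eq_zero_or_pos Aᶜ.card with h' | h'
  · refine ⟨0, Or.inl rfl, ?_⟩
    rw [Finset.card_eq_zero] at h'
    have : A = Finset.univ := by rwa [Finset.compl_eq_empty_iff] at h'
    subst this
    rw [Sr_univ hv]
  obtain ⟨k, hk, hle⟩ := core (a := A.card) (b := Aᶜ.card) (by omega) (by omega) (gap v)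
    (gap_nonneg hv) _ (pc A) (pc Aᶜ) rfl (isPath_pc A)
  rw [hn] at hk hle
  refine ⟨k, hk, ?_⟩
  rw [Sr_eq hv]
  unfold Cc
  linarith

/-- singleton structures are dominated by cutting off an extreme agent -/
lemma dom_single {n : ℕ} (hn : 2 ≤ n) {v : Fin n → ℝ} (hv : Monotone v) (j : Fin n) :
    ∃ k, k < n ∧ 2 * Cc n (gap v) k ≤ Sr v {j} := by
  have hnR : (2:ℝ) ≤ n := by exact_mod_cast hn
  have hc1 : ({j} : Finset (Fin n)).card = 1 := Finset.card_singleton j
  have hc2 : ({j} : Finset (Fin n))ᶜ.card = n - 1 := by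
    rw [Finset.card_compl, hc1]; simp
  have hn1 : ((n - 1 : ℕ) : ℝ) = n - 1 := by rw [Nat.cast_sub (by omega)]; simp
  have hpc : ∀ s, pc ({j} : Finset (Fin n)) s = if j.val < s then 1 else 0 := by
    intro s
    unfold pc
    rw [Finset.filter_singleton]
    split_ifs <;> simp
  have hpc2 : ∀ s, s ≤ n → pc ({j} : Finset (Fin n))ᶜ s = if j.val < s then s - 1 else s := by
    intro s hs
    have := (isPath_pc ({j} : Finset (Fin n))).sum_eq s (by rw [hc1, hc2]; omega)
    rw [hpc] at this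
    split_ifs with h
    · rw [if_pos h] at this; omega
    · rw [if_neg h] at this; omega
  have hU : ∀ s, 1 ≤ s → s < n → fU 1 (n-1) (pc ({j} : Finset (Fin n)) s) (pc ({j} : Finset (Fin n))ᶜ s) =
      if j.val < s then ((s:ℝ)-1)*(n-s)/(n-2) else (s:ℝ)*(n-1-s)/(n-2) := by
    intro s h1 h2
    rw [hpc, hpc2 s h2.le]
    unfold fU
    rw [hn1]
    split_ifs with h
    · rw [Nat.cast_sub h1]
      push_cast
      have : (n:ℝ) - 1 - 1 = n - 2 := by ring
      rw [this]
      simp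
    · push_cast
      have : (n:ℝ) - 1 - 1 = n - 2 := by ring
      rw [this]
      simp
  rcases Nat.lt_or_ge n (2*j.val) with h | h
  · -- cut off the last agent
    refine ⟨n-1, by omega, ?_⟩
    rw [Sr_eq hv, hc1, hc2]
    unfold Cc
    have : ∑ s ∈ Ico 1 n, gap v s * cf n (n-1) s ≤
        ∑ s ∈ Ico 1 n, gap v s * fU 1 (n-1) (pc ({j} : Finset (Fin n)) s) (pc ({j} : Finset (Fin n))ᶜ s) := by
      apply Finset.sum_le_sum
      intro s hs
      rw [Finset.mem_Ico] at hs
      apply mul_le_mul_of_nonneg_left _ (gap_nonneg hv s)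
      rw [hU s hs.1 hs.2]
      unfold cf
      rw [if_pos (by omega), hn1]
      have : (n:ℝ) - 1 - 1 = n - 2 := by ring
      rw [this]
      split_ifs with h'
      · apply div_le_div_of_nonneg_right _ (by linarith)
        have : (n:ℝ) ≤ 2 * s := by exact_mod_cast (by omega : n ≤ 2 * s)
        nlinarith
      · exact le_rfl
    linarith
  · -- cut off the first agent
    refine ⟨1, by omega, ?_⟩
    rw [Sr_eq hv, hc1, hc2]
    unfold Cc
    have : ∑ s ∈ Ico 1 n, gap v s * cf n 1 s ≤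
        ∑ s ∈ Ico 1 n, gap v s * fU 1 (n-1) (pc ({j} : Finset (Fin n)) s) (pc ({j} : Finset (Fin n))ᶜ s) := by
      apply Finset.sum_le_sum
      intro s hs
      rw [Finset.mem_Ico] at hs
      apply mul_le_mul_of_nonneg_left _ (gap_nonneg hv s)
      rw [hU s hs.1 hs.2]
      unfold cf
      have hsR : (1:ℝ) ≤ s := by exact_mod_cast hs.1
      have hsR2 : (s:ℝ) + 1 ≤ n := by exact_mod_cast hs.2
      have e : (n:ℝ) - (1:ℕ) - 1 = n - 2 := by push_cast; ring
      rcases Nat.lt_or_ge 1 s with h1 | h1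
      · rw [if_neg (by omega : ¬ s ≤ 1), e]
        split_ifs with h'
        · push_cast; exact le_rfl
        · apply div_le_div_of_nonneg_right _ (by linarith)
          have : 2 * (s:ℝ) ≤ n := by exact_mod_cast (by omega : 2 * s ≤ n)
          push_cast
          nlinarith
      · have : s = 1 := by omega
        subst this
        rw [if_pos le_rfl]
        simp only [Nat.cast_one, sub_self, mul_zero, zero_div, zero_mul]
        split_ifs with h'
        · exact le_rfl
        · apply div_nonneg <;> linarith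
    linarith

end Pool.Agent.Lib.MP_e22fa6_co
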